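import Pool.Agent.helper78.WB.SpecIII

/-!
# Project wb (MP_bb5cc8_nt), Part III, row SIZE: the size of a value of a form
-/

set_option autoImplicit false

namespace Pool.Agent.WB

open MvPolynomial

/-- SIZE: the value of a form of degree `n` at an integer vector. -/
theorem SIZE (h1 : DIM3_stmt) : SIZE_stmt := by
  intro n H N Q ζ hQ hH hN
  have hdeg : ∀ μ ∈ Q.support, μ.degree = n := by
    intro μ hμ
    by_contra hne
    exact (mem_support_iff.mp hμ) (hQ.coeff_eq_zero hne)
  have hcard : Q.support.card ≤ s3 n := by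
    have h2 : Nat.card {μ : Fin 3 →₀ ℕ // μ.degree = n} = s3 n := h1.1 n
    have hpos : s3 n ≠ 0 := by
      unfold s3
      have h3 : 2 ≤ (n + 1) * (n + 2) := by nlinarith
      have h4 : 1 ≤ (n + 1) * (n + 2) / 2 := by
        rw [Nat.one_le_div_iff (by norm_num)]
        exact h3
      omega
    have hfin : Finite {μ : Fin 3 →₀ ℕ // μ.degree = n} := by
      apply Nat.finite_of_card_ne_zero
      rw [h2]
      exact hpos
    have h5 : Nat.card Q.support ≤ Nat.card {μ : Fin 3 →₀ ℕ // μ.degree = n} := by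
      apply Nat.card_le_card_of_injective
        (fun x : Q.support => (⟨x.1, hdeg x.1 x.2⟩ : {μ : Fin 3 →₀ ℕ // μ.degree = n}))
      intro x y hxy
      apply Subtype.ext
      have h8 := Subtype.mk.inj hxy
      exact h8
    rw [h2] at h5
    have h9 : Nat.card Q.support = Q.support.card := by
      rw [Nat.card_eq_fintype_card, Fintype.card_coe]
    rw [h9] at h5
    exact h5
  have hterm : ∀ μ ∈ Q.support, |coeff μ Q * ∏ i, ζ i ^ μ i| ≤ (H : ℤ) * (N : ℤ) ^ n := by
    intro μ hμ
    rw [abs_mul]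
    have h6 : |∏ i, ζ i ^ μ i| ≤ (N : ℤ) ^ n := by
      rw [Finset.abs_prod]
      calc ∏ i, |ζ i ^ μ i| ≤ ∏ i : Fin 3, (N : ℤ) ^ μ i := by
            apply Finset.prod_le_prod
            · intro i _
              exact abs_nonneg _
            · intro i _
              rw [abs_pow]
              exact pow_le_pow_left₀ (abs_nonneg _) (hN i) _
        _ = (N : ℤ) ^ n := by
            rw [Finset.prod_pow_eq_pow_sum]
            congr 1
            have h7 := hdeg μ hμ
            rw [← h7, Finsupp.degree_eq_sum]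
    exact mul_le_mul (hH μ) h6 (abs_nonneg _) (by positivity)
  rw [eval_eq']
  calc |∑ μ ∈ Q.support, coeff μ Q * ∏ i, ζ i ^ μ i|
      ≤ ∑ μ ∈ Q.support, |coeff μ Q * ∏ i, ζ i ^ μ i| := Finset.abs_sum_le_sum_abs _ _
    _ ≤ ∑ _μ ∈ Q.support, (H : ℤ) * (N : ℤ) ^ n := Finset.sum_le_sum hterm
    _ = (Q.support.card : ℤ) * ((H : ℤ) * (N : ℤ) ^ n) := by
        rw [Finset.sum_const, nsmul_eq_mul]
    _ ≤ (s3 n : ℤ) * ((H : ℤ) * (N : ℤ) ^ n) := by
        apply mul_le_mul_of_nonneg_right
        · exact_mod_cast hcard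
        · positivity
    _ = (s3 n : ℤ) * H * (N : ℤ) ^ n := by ring

end Pool.Agent.WB
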